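import Mathlib

/-!
# A solvable group in which the equation `x x^{-a} x^{a^2} = c` has a solution

`G = ⟨c⟩_7 ⋊ ⟨a⟩_6` with `c^a = c^5` is the Frobenius group of order 42.  The solution lies in the
wreath product `H` of `G` with a group of order two, in which `G` is embedded by
`g ↦ (g, g; π g)`, where `π` is the homomorphism of `G` onto the group of order two with `π c = 1`.
For `h = (x, y; 1)` the equation becomes the system
`x * (y⁻¹)^a * x^(a^2) = c`, `y * (x⁻¹)^a * y^(a^2) = c` over `G`, which has the solution
`x = c^4 a^2`, `y = c^3 a^4`.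
-/

set_option autoImplicit false
set_option maxRecDepth 100000

namespace Pool.Agent.Results.MP_a21721_al.SolvableSolution

/-- The cyclic group of order 7. -/
abbrev C7 := Multiplicative (ZMod 7)

/-- The cyclic group of order 6. -/
abbrev C6 := Multiplicative (ZMod 6)

/-- The power `3 ^ k` modulo 7, for `k` modulo 6. -/
def pow3 (k : ZMod 6) : ZMod 7 := (![1, 3, 2, 6, 4, 5] : Fin 6 → ZMod 7) k

/-- The automorphism `x ↦ x^(3^k)` of the cyclic group of order 7, for `k` modulo 6. -/
def actFun (k : C6) : MulAut C7 where
  toFun x := Multiplicative.ofAdd (pow3 (Multiplicative.toAdd k) * Multiplicative.toAdd x)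
  invFun x := Multiplicative.ofAdd (pow3 (-Multiplicative.toAdd k) * Multiplicative.toAdd x)
  left_inv := by revert k; decide
  right_inv := by revert k; decide
  map_mul' := by revert k; decide

/-- The action of the cyclic group `⟨a⟩` of order 6 on the cyclic group `⟨c⟩` of order 7 with
`a c a⁻¹ = c^3`, that is, `c^a = a⁻¹ c a = c^5`. -/
def act : C6 →* MulAut C7 where
  toFun := actFun
  map_one' := by
    apply MulEquiv.ext
    decide
  map_mul' := by
    intro x y
    apply MulEquiv.ext
    revert x y
    decide

/-- The group `G = ⟨c⟩ ⋊ ⟨a⟩` of order 42. -/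
abbrev G := C7 ⋊[act] C6

/-- The generator `a` of order 6. -/
def a : G := ⟨1, Multiplicative.ofAdd 1⟩

/-- The generator `c` of order 7. -/
def c : G := ⟨Multiplicative.ofAdd 1, 1⟩

/-! ## The wreath product with a group of order two -/

/-- The group of order two. -/
abbrev C2 := Multiplicative (ZMod 2)

/-- The action of the group of order two on `G × G` by exchanging the coordinates. -/
def swap : C2 →* MulAut (G × G) where
  toFun s := if s = 1 then 1 else MulEquiv.prodComm
  map_one' := by simp
  map_mul' := by
    intro s t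
    have h : ∀ s : C2, s = 1 ∨ s = Multiplicative.ofAdd 1 := by decide
    have h1 : (Multiplicative.ofAdd 1 : C2) ≠ 1 := by decide
    have h2 : (Multiplicative.ofAdd 1 : C2) * Multiplicative.ofAdd 1 = 1 := by decide
    rcases h s with rfl | rfl <;> rcases h t with rfl | rfl
    · simp
    · simp
    · simp
    · rw [h2, if_pos rfl, if_neg h1]
      ext x <;> rfl

/-- The wreath product of `G` with the group of order two. -/
abbrev H := (G × G) ⋊[swap] C2

lemma solvable_semi {N K : Type} [Group N] [Group K] (φ : K →* MulAut N)
    (hN : Group.IsSolvable N) (hK : Group.IsSolvable K) : Group.IsSolvable (N ⋊[φ] K) := by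
  refine Group.isSolvable_of_ker_le_range (SemidirectProduct.inl : N →* N ⋊[φ] K)
    (SemidirectProduct.rightHom : N ⋊[φ] K →* K) ?_
  rw [SemidirectProduct.range_inl_eq_ker_rightHom]

lemma solvable_G : Group.IsSolvable G := solvable_semi _ inferInstance inferInstance

lemma solvable_H : Group.IsSolvable H := by
  have := solvable_G
  refine solvable_semi _ ?_ inferInstance
  infer_instance

/-- The homomorphism of `G` onto the group of order two. -/
def parity : G →* C2 :=
  (AddMonoidHom.toMultiplicative (ZMod.castHom (show 2 ∣ 6 by norm_num) (ZMod 2)).toAddMonoidHom).comp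
    SemidirectProduct.rightHom

lemma swap_diag (s : C2) (g : G) : swap s (g, g) = (g, g) := by
  by_cases h : s = 1
  · rw [h]; simp
  · have : swap s = MulEquiv.prodComm := if_neg h
    rw [this]; rfl

/-- The embedding `g ↦ (g, g; π g)`. -/
def emb : G →* H where
  toFun g := ⟨(g, g), parity g⟩
  map_one' := by ext <;> simp
  map_mul' g g' := by
    apply SemidirectProduct.ext
    · rw [SemidirectProduct.mul_left, swap_diag]; rfl
    · rw [SemidirectProduct.mul_right, map_mul]

lemma emb_inj : Function.Injective emb := fun _ _ h =>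
  congrArg (fun z : H => z.left.1) h

/-- **A solvable group in which `x x^{-a} x^{a^2} = c` has a solution.**
Here `a ^ 6 = c ^ 7 = 1`, `c^a = a⁻¹ c a = c^5`, and `a`, `c` generate the group `G` of order 42
(the first line of the statement); there are a solvable group `H`, an embedding `φ : G → H` and
`h ∈ H` with `h h^{-a} h^{a^2} = c`, where `x^g = g⁻¹ x g` and `G` is identified with `φ(G)`. -/
theorem result :
    (Nat.card G = 42 ∧ orderOf a = 6 ∧ orderOf c = 7 ∧ a⁻¹ * c * a = c ^ 5 ∧
      Subgroup.closure {a, c} = ⊤) ∧
    ∃ (H : Type) (_ : Group H) (φ : G →* H) (h : H),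
      Group.IsSolvable H ∧ Function.Injective φ ∧
      h * ((φ a)⁻¹ * h⁻¹ * φ a) * ((φ a ^ 2)⁻¹ * h * φ a ^ 2) = φ c := by
  have e1 : a⁻¹ * c * a = c ^ 5 := by
    have : a⁻¹ * c * a = c * c * c * c * c := by decide
    rw [this]; simp only [pow_succ, pow_zero, one_mul]
  refine ⟨⟨?_, ?_, ?_, e1, ?_⟩, H, inferInstance, emb,
    ⟨(⟨Multiplicative.ofAdd 4, Multiplicative.ofAdd 2⟩,
      ⟨Multiplicative.ofAdd 3, Multiplicative.ofAdd 4⟩), 1⟩, solvable_H, emb_inj, ?_⟩
  · rw [SemidirectProduct.card]
    simp [Nat.card_eq_fintype_card]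
  · rw [orderOf_eq_iff (by norm_num)]
    refine ⟨by decide, ?_⟩
    intro m hm hm0
    interval_cases m <;> decide
  · rw [orderOf_eq_iff (by norm_num)]
    refine ⟨by decide, ?_⟩
    intro m hm hm0
    interval_cases m <;> decide
  · rw [eq_top_iff]
    rintro ⟨x, y⟩ -
    have hc : c ∈ Subgroup.closure ({a, c} : Set G) := Subgroup.subset_closure (by simp)
    have ha : a ∈ Subgroup.closure ({a, c} : Set G) := Subgroup.subset_closure (by simp)
    have key : ∀ (x : C7) (y : C6), (⟨x, y⟩ : G) =
        SemidirectProduct.inl x * SemidirectProduct.inr y := fun x y => by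
      apply SemidirectProduct.ext <;> simp
    have h1 : (SemidirectProduct.inl x : G) = c ^ (Multiplicative.toAdd x).val := by
      revert x; decide
    have h2 : (SemidirectProduct.inr y : G) = a ^ (Multiplicative.toAdd y).val := by
      revert y; decide
    rw [key, h1, h2]
    exact mul_mem (pow_mem hc _) (pow_mem ha _)
  · decide

end Pool.Agent.Results.MP_a21721_al.SolvableSolution
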